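import Mathlib
import Pool.Agent.W2helper83.FP.Main

/-!
# Rational cycles of quadratic polynomials whose parameter has few primes in its denominator

Every quadratic polynomial `a t ^ 2 + b t + e` over `ℚ` is conjugate over `ℚ` to `t ^ 2 + c` with
`c = a e + b / 2 - b ^ 2 / 4`.  We prove that no rational point has exact period greater than three
in the following two cases:

* the denominator of `c` has at most five distinct prime factors;
* the denominator of `c` is divisible neither by `30` nor by `201894 = 2 * 3 * 7 * 11 * 19 * 23`.

Outline.

* `Pool.Agent.W2helper83.FP.period_cases`, `Cy.good`: at a prime `p` of good reduction the length is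
  `m` or `m r`, where `m` is the period of the residue and `r` the order of its multiplier (also
  `3 m` for `p = 3`); the lengths which are possible modulo the primes `p ≤ 23` are listed by a
  finite computation.
* `no_four`: there is no cycle of length four (Fermat cubic).
* `Cy.letter`: at a prime `q` which divides the denominator the valuations of `x i + x j` are
  `e (μ i j - 1)`, where `μ` depends only on a primitive binary word of length `n`.
* Hence, up to sign, the sums `x i + x j` are monomials in at most `s` unknown integers, if the
  denominator has `s` prime factors, with exponents from a short list.  For lengths `5` and `6` and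
  `s = 5` this is impossible modulo each of the auxiliary primes `89, 97` and `17, 29, 41`
  (`Cy.excl`); one of these does not divide the denominator.
-/

set_option autoImplicit false

namespace Pool.Agent.Results.MP_c076ed_nt.FewPrimesQuadratic

open Pool.Agent.W2helper83.FP

/-- the cycle of `t ^ 2 + c` belonging to a periodic point of a quadratic polynomial -/
theorem exists_cy (a b e : ℚ) (ha : a ≠ 0) (z : ℚ)
    (hn : 3 ≤ Function.minimalPeriod (fun t : ℚ => a * t ^ 2 + b * t + e) z) :
    Cy (a * e + b / 2 - b ^ 2 / 4)
      (fun i => a * ((fun t : ℚ => a * t ^ 2 + b * t + e)^[i] z) + b / 2)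
      (Function.minimalPeriod (fun t : ℚ => a * t ^ 2 + b * t + e) z) := by
  set f : ℚ → ℚ := fun t => a * t ^ 2 + b * t + e with hf
  set n := Function.minimalPeriod f z with hndef
  have hn0 : 0 < n := by omega
  refine ⟨hn, ?_, ?_⟩
  · intro i
    show a * (f^[i + 1] z) + b / 2 = (a * (f^[i] z) + b / 2) ^ 2 + _
    rw [Function.iterate_succ_apply', hf]
    ring
  · intro i j
    show a * (f^[i] z) + b / 2 = a * (f^[j] z) + b / 2 ↔ i ≡ j [MOD n]
    have h1 : a * (f^[i] z) + b / 2 = a * (f^[j] z) + b / 2 ↔ f^[i] z = f^[j] z := by
      constructor
      · intro h
        exact mul_left_cancel₀ ha (add_right_cancel h)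
      · intro h
        rw [h]
    rw [h1, ← Function.iterate_mod_minimalPeriod_eq (f := f) (x := z) (n := i),
      ← Function.iterate_mod_minimalPeriod_eq (f := f) (x := z) (n := j)]
    constructor
    · intro h
      exact Function.iterate_injOn_Iio_minimalPeriod (f := f) (x := z)
        (Set.mem_Iio.mpr (Nat.mod_lt i hn0)) (Set.mem_Iio.mpr (Nat.mod_lt j hn0)) h
    · intro h
      have h2 : i % n = j % n := h
      rw [← hndef, h2]

/-- Let `f t = a t ^ 2 + b t + e` be a quadratic polynomial over `ℚ`, and let
`c = a e + b / 2 - b ^ 2 / 4`, so that `f` is conjugate to `t ^ 2 + c`.  If the denominator of `c`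
has at most five distinct prime factors, or if it is divisible neither by `30` nor by `201894`, then
every rational periodic point of `f` has exact period at most three. -/
theorem result (a b e : ℚ) (ha : a ≠ 0)
    (h : (a * e + b / 2 - b ^ 2 / 4).den.primeFactors.card ≤ 5 ∨
      (¬ 30 ∣ (a * e + b / 2 - b ^ 2 / 4).den ∧ ¬ 201894 ∣ (a * e + b / 2 - b ^ 2 / 4).den))
    (z : ℚ) : Function.minimalPeriod (fun t : ℚ => a * t ^ 2 + b * t + e) z ≤ 3 := by
  by_contra hcon
  push Not at hcon
  have C := exists_cy a b e ha z (by omega)
  rcases h with h | ⟨h1, h2⟩
  · have := C.card_lt (by omega)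
    omega
  · rcases C.dvd_cases (by omega) with h3 | h3
    · exact h1 h3
    · exact h2 h3

end Pool.Agent.Results.MP_c076ed_nt.FewPrimesQuadratic
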